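import Mathlib
import Pool.Agent.Helper35.HC.StC

/-! Project HC, module PKD: the package under the pinching. -/

set_option autoImplicit false

namespace Helper94.HC

open Helper35.HC Helper35.HSF Helper35.MS Helper35.PI Helper35.PI2 Helper32.CL
open scoped ContDiff Manifold Topology ENNReal BigOperators
open MeasureTheory Set Filter

theorem pkd_scalar {ν δ X Y Z S e τ : ℝ} (hν : 2 ≤ ν) (hδ : 0 < δ)
    (hY : 1 ≤ Y) (hth : 0 ≤ X - Y / ν) (hZ1 : Z ≤ X * Y) (hZ2 : Y ^ 2 / ν ≤ Z)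
    (hR : S - Z / ν ≤ 5 * X * (X - Y / ν))
    (p1 : X - Y / ν ≤ (1 - δ) * (2 * (ν - 1) / (ν * (ν + 2))) * Y)
    (he : 0 ≤ e) (hτ : 3 / (ν + 2) * e ≤ τ) :
    0 ≤ τ - e / ν ∧ 0 ≤ X - Z / Y ∧ X - Z / Y ≤ X - Y / ν ∧
      e ≤ ν * (ν + 2) / (2 * (ν - 1)) * (τ - e / ν) ∧ Y / ν ≤ Z / Y ∧ Z / Y ≤ 2 * Y ∧
      S - Z / ν ≤ 10 * Y * (X - Y / ν) ∧ Z / Y ≤ X ∧
      16 * ν * (X * τ) ≤ 128 * ν * (Y * (τ - e / ν)) := by
  have hY0 : 0 < Y := by linarith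
  have hν0 : 0 < ν := by linarith
  have hν1 : 0 < ν - 1 := by linarith
  have hν2 : 0 < ν + 2 := by linarith
  have hZY : Z / Y ≤ X := by rw [div_le_iff₀ hY0]; exact hZ1
  have hYZ : Y / ν ≤ Z / Y := by
    rw [le_div_iff₀ hY0]
    calc Y / ν * Y = Y ^ 2 / ν := by ring
      _ ≤ Z := hZ2
  have hc : 2 * (ν - 1) / (ν * (ν + 2)) ≤ 1 := by
    rw [div_le_one (by positivity)]; nlinarith
  have hc0 : 0 < 2 * (ν - 1) / (ν * (ν + 2)) := by positivity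
  have hX1 : X - Y / ν ≤ Y := by
    refine p1.trans ?_
    have : (1 - δ) * (2 * (ν - 1) / (ν * (ν + 2))) ≤ 1 := by nlinarith
    nlinarith
  have hYν : Y / ν ≤ Y := by
    rw [div_le_iff₀ hν0]; nlinarith
  have hX2 : X ≤ 2 * Y := by linarith
  have hX0 : 0 ≤ X := by
    have : 0 ≤ Y / ν := by positivity
    linarith
  -- the gradient
  have hG : 2 * (ν - 1) / (ν * (ν + 2)) * e ≤ τ - e / ν := by
    have : 2 * (ν - 1) / (ν * (ν + 2)) * e = 3 / (ν + 2) * e - e / ν := by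
      field_simp; ring
    linarith
  have hG0 : 0 ≤ τ - e / ν := le_trans (by positivity) hG
  have he2 : e ≤ ν * (ν + 2) / (2 * (ν - 1)) * (τ - e / ν) := by
    have h := mul_le_mul_of_nonneg_left hG
      (show 0 ≤ ν * (ν + 2) / (2 * (ν - 1)) by positivity)
    have h' : ν * (ν + 2) / (2 * (ν - 1)) * (2 * (ν - 1) / (ν * (ν + 2)) * e) = e := by
      field_simp
    linarith
  have hτ4 : τ ≤ 4 * (τ - e / ν) := by
    have h1 : e / ν ≤ (ν + 2) / (2 * (ν - 1)) * (τ - e / ν) := by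
      rw [div_le_iff₀ hν0]
      calc e ≤ ν * (ν + 2) / (2 * (ν - 1)) * (τ - e / ν) := he2
        _ = (ν + 2) / (2 * (ν - 1)) * (τ - e / ν) * ν := by ring
    have h2 : (ν + 2) / (2 * (ν - 1)) ≤ 2 := by
      rw [div_le_iff₀ (by positivity)]; linarith
    have h3 := mul_le_mul_of_nonneg_right h2 hG0
    linarith
  have hτ0 : 0 ≤ τ := le_trans (by positivity) hτ
  refine ⟨hG0, by linarith, by linarith, he2, hYZ, by linarith, ?_, hZY, ?_⟩
  · refine hR.trans ?_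
    have := mul_le_mul_of_nonneg_right hX2 hth
    linarith
  · have h1 : X * τ ≤ (2 * Y) * (4 * (τ - e / ν)) :=
      mul_le_mul hX2 hτ4 hτ0 (by linarith)
    have h2 := mul_le_mul_of_nonneg_left h1 (show 0 ≤ 16 * ν by positivity)
    linarith

theorem hPKD (hJPK : StJPK) (hSQG : StSQG) (hT3 : StT3) : StPKD := by
  intro n hn N M _ _ _ T F ts κ₀ δ hP t ht q Y θ e hY hθ he
  have ht' : t ∈ Ioo 0 T := ⟨lt_of_lt_of_le hP.ts0.1 ht.1, ht.2⟩
  obtain ⟨_, hJ⟩ := hJPK n N (by omega) M (Ioo 0 T) F hP.fl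
  obtain ⟨L, u, θ', A, T', hG, hAeq, hTeq, hsA, hsT, hAA, hHH, hZF, hth, heH, h1, h2, h3, h4, h5,
    h6, h7⟩ := hJ q t ht'
  have hPin : PinA n κ₀ δ A := by rw [hAeq]; exact hP.P t ht q L u θ' hG
  have hYY : YY A = Y := by rw [hY, hHH]; rfl
  have hth' : thA2 A = XX A - Y / n := by unfold thA2; rw [hYY]
  have hal : al2 A = XX A - ZZ A / Y := by unfold al2; rw [hYY]
  obtain ⟨_, _, _, _, _, _, _, hR, hth0, _, hZ1, hZ2⟩ :=
    hSQG n N (by omega) A hsA ((1 / (n : ℝ)) • Hv A) _ rfl rfl _ rfl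
  have hY1 : 1 ≤ Y := by rw [hY]; exact hP.Y1 t ht' q
  have hν : (2 : ℝ) ≤ (n : ℝ) := by exact_mod_cast hn
  have hT := hT3 n N T' hsT
  have p1 := hPin.p1
  rw [hYY] at hZ1 hZ2 p1
  rw [hth'] at hR hth0 p1
  have he0 : 0 ≤ eq2 T' := by
    unfold eq2
    exact Finset.sum_nonneg (fun k _ => by positivity)
  obtain ⟨a1, a2, a3, a4, a5, a6, a7, a8, a9⟩ :=
    pkd_scalar hν hP.δ0 hY1 hth0 hZ1 hZ2 hR p1 he0 hT
  have hθA : θ = XX A - Y / n := by rw [hθ, hth, hth']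
  have heA : e = eq2 T' := by rw [he, heH]
  have hY0 : Y ≠ 0 := by linarith
  refine ⟨tq T' - eq2 T' / n, Sq A - ZZ A / n, AAH A - Sq A, al2 A, ZZ A / Y, a1, ?_, ?_, ?_, ?_,
    ?_, ?_, a5, a6, ?_, ?_, ?_, h1, ?_, ?_, ?_, ?_, ?_, ?_, ?_, ?_⟩
  · rw [hal]; exact a2
  · rw [hal, hθA]; exact a3
  · rw [hθA]; exact hth0
  · rw [hθA]; exact p1
  · rw [heA]; exact he0
  · rw [heA]; exact a4
  · rw [hθA]; exact a7
  · rw [hθA]; linarith
  · rw [hAA, hθA]; ring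
  · rw [h2, heA]
    have : 2 * (ZZ A / Y) * Y = 2 * ZZ A := by field_simp
    rw [this]
  · exact h3.trans a9
  · rw [h4, heA]
  · rw [hθ, heA]; exact h5
  · rw [hθ]; exact h6
  · rw [hY, heA]; exact h7
  · have := hPin.p3
    rw [hYY, hth'] at this
    rw [hθA]; exact this
  · intro hk
    have := hPin.p2 (by rw [hYY]; exact hk)
    rw [hYY, hth'] at this
    rw [hθA]; exact this

end Helper94.HC
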