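import Mathlib
import Pool.Agent.Helper35.HC.StA

/-! Project HC, module SQB: the invariants in codimension two. -/

set_option autoImplicit false

namespace Helper94.HC

open Helper35.HC Helper35.HSF Helper35.MS Helper35.PI Helper35.PI2 Helper32.CL
open scoped BigOperators

variable {n N : ℕ}

theorem t4 (P Q R S : Fin n → Fin n → ℝ) :
    (∑ i, ∑ j, ∑ k, ∑ l, P i j * Q j k * R k l * S l i) =
      Matrix.trace ((Matrix.of P * Matrix.of Q) * (Matrix.of R * Matrix.of S)) := by
  unfold Matrix.trace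
  refine Finset.sum_congr rfl (fun i _ => ?_)
  rw [Matrix.diag_apply, Matrix.mul_apply, Finset.sum_comm]
  refine Finset.sum_congr rfl (fun k _ => ?_)
  rw [Matrix.mul_apply, Matrix.mul_apply, Finset.sum_mul]
  refine Finset.sum_congr rfl (fun j _ => ?_)
  rw [Finset.mul_sum]
  refine Finset.sum_congr rfl (fun l _ => ?_)
  simp only [Matrix.of_apply]
  ring

theorem cq_trace (X Y : Fin n → Fin n → ℝ) (hX : SymS X) (hY : SymS Y) :
    cq X Y = 2 * Matrix.trace ((Matrix.of X * Matrix.of X) * (Matrix.of Y * Matrix.of Y))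
      - 2 * Matrix.trace ((Matrix.of X * Matrix.of Y) * (Matrix.of X * Matrix.of Y)) := by
  set A : Matrix (Fin n) (Fin n) ℝ := Matrix.of X with hA
  set B : Matrix (Fin n) (Fin n) ℝ := Matrix.of Y with hB
  have hAt : A.transpose = A := by
    ext i j; simp [hA, Matrix.transpose_apply, hX j i]
  have hBt : B.transpose = B := by
    ext i j; simp [hB, Matrix.transpose_apply, hY j i]
  have h1 : cq X Y = Matrix.trace ((A * B - B * A) * (A * B - B * A).transpose) := by
    unfold cq Matrix.trace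
    refine Finset.sum_congr rfl (fun i _ => ?_)
    rw [Matrix.diag_apply, Matrix.mul_apply]
    refine Finset.sum_congr rfl (fun j _ => ?_)
    have : (A * B - B * A) i j = ∑ k, (X i k * Y k j - Y i k * X k j) := by
      rw [Matrix.sub_apply, Matrix.mul_apply, Matrix.mul_apply, ← Finset.sum_sub_distrib]
      rfl
    rw [Matrix.transpose_apply, this, pow_two]
  rw [h1, Matrix.transpose_sub, Matrix.transpose_mul, Matrix.transpose_mul, hAt, hBt]
  have e1 : (A * B - B * A) * (B * A - A * B)
      = (A * B) * (B * A) - (A * B) * (A * B) - (B * A) * (B * A) + (B * A) * (A * B) := by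
    noncomm_ring
  rw [e1, Matrix.trace_add, Matrix.trace_sub, Matrix.trace_sub]
  have e2 : Matrix.trace ((A * B) * (B * A)) = Matrix.trace ((A * A) * (B * B)) := by
    have : (A * B) * (B * A) = (A * (B * B)) * A := by simp only [Matrix.mul_assoc]
    rw [this, Matrix.trace_mul_comm]
    congr 1
    simp only [Matrix.mul_assoc]
  have e3 : Matrix.trace ((B * A) * (A * B)) = Matrix.trace ((A * A) * (B * B)) := by
    have : (B * A) * (A * B) = (B * (A * A)) * B := by simp only [Matrix.mul_assoc]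
    rw [this, Matrix.trace_mul_comm, ← Matrix.mul_assoc, Matrix.trace_mul_comm]
  have e4 : Matrix.trace ((B * A) * (B * A)) = Matrix.trace ((A * B) * (A * B)) := by
    have : (B * A) * (B * A) = B * (A * B * A) := by simp only [Matrix.mul_assoc]
    rw [this, Matrix.trace_mul_comm]
    congr 1
    simp only [Matrix.mul_assoc]
  rw [e2, e3, e4]; ring

theorem tl_sym {X : Fin n → Fin n → ℝ} (hX : SymS X) : SymS (tl X) := by
  intro i j
  unfold tl
  rw [hX i j]
  by_cases h : i = j
  · subst h; rfl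
  · rw [if_neg h, if_neg (fun h' => h h'.symm)]

theorem cq_tl (X Y : Fin n → Fin n → ℝ) : cq (tl X) (tl Y) = cq X Y := by
  unfold cq
  refine Finset.sum_congr rfl (fun i _ => Finset.sum_congr rfl (fun j _ => ?_))
  congr 1
  have h : ∀ k, (tl X i k * tl Y k j - tl Y i k * tl X k j) =
      (X i k * Y k j - Y i k * X k j)
        - ((if i = k then mt X else 0) * Y k j) - (X i k * (if k = j then mt Y else 0))
        + ((if i = k then mt Y else 0) * X k j) + (Y i k * (if k = j then mt X else 0))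
        + ((if i = k then mt X else 0) * (if k = j then mt Y else 0)
          - (if i = k then mt Y else 0) * (if k = j then mt X else 0)) := by
    intro k; unfold tl; ring
  rw [Finset.sum_congr rfl (fun k _ => h k)]
  simp only [Finset.sum_add_distrib, Finset.sum_sub_distrib, ite_mul, mul_ite, zero_mul, mul_zero,
    Finset.sum_ite_eq, Finset.sum_ite_eq', Finset.mem_univ, if_true]
  by_cases h : i = j
  · subst h; simp; ring
  · simp [h]; ring

theorem sum_tl (hn : 1 ≤ n) (X : Fin n → Fin n → ℝ) : ∑ i, tl X i i = 0 := by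
  have hn' : (n : ℝ) ≠ 0 := by exact_mod_cast (by omega : n ≠ 0)
  unfold tl
  simp only [if_true, Finset.sum_sub_distrib, Finset.sum_const, Finset.card_univ,
    Fintype.card_fin, nsmul_eq_mul]
  unfold Helper35.HC.mt
  field_simp
  ring

theorem sum4 (P Q : Fin n → Fin n → ℝ) :
    (∑ i, ∑ j, ∑ k, ∑ l, P i j * Q k l) = (∑ i, ∑ j, P i j) * (∑ i, ∑ j, Q i j) := by
  rw [Finset.sum_mul]
  refine Finset.sum_congr rfl (fun i _ => ?_)
  rw [Finset.sum_mul]
  refine Finset.sum_congr rfl (fun j _ => ?_)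
  rw [Finset.mul_sum]
  refine Finset.sum_congr rfl (fun k _ => ?_)
  rw [Finset.mul_sum]

/-- the trace free part is `K° ξ + b° η`: scalar products -/
theorem inner_aa {ξ η : EE N} (h1 : ‖ξ‖ = 1) (h2 : ‖η‖ = 1) (h3 : (inner ℝ ξ η : ℝ) = 0)
    (a b c d : ℝ) : (inner ℝ (a • ξ + b • η) (c • ξ + d • η) : ℝ) = a * c + b * d := by
  have h3' : (inner ℝ η ξ : ℝ) = 0 := by rw [real_inner_comm]; exact h3
  have e1 : (inner ℝ ξ ξ : ℝ) = 1 := by rw [real_inner_self_eq_norm_sq, h1]; norm_num
  have e2 : (inner ℝ η η : ℝ) = 1 := by rw [real_inner_self_eq_norm_sq, h2]; norm_num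
  simp only [inner_add_left, inner_add_right, real_inner_smul_left, real_inner_smul_right,
    h3, h3', e1, e2]
  ring

theorem Sq_val (X Y : Fin n → Fin n → ℝ) (hX : SymS X) (hY : SymS Y) (a : Fin n → Fin n → EE N)
    (ha : ∀ i j k l, (inner ℝ (a i j) (a k l) : ℝ) = X i j * X k l + Y i j * Y k l) :
    Sq a = (∑ i, ∑ j, X i j * X i j) ^ 2 + (∑ i, ∑ j, Y i j * Y i j) ^ 2
      + 2 * (∑ i, ∑ j, X i j * Y i j) ^ 2 + 2 * cq X Y := by
  unfold Sq
  simp only [ha]
  have h : ∀ i j k l : Fin n,
      (X i j * X k l + Y i j * Y k l) ^ 2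
        + 2 * ((X i j * X j k + Y i j * Y j k) * (X k l * X l i + Y k l * Y l i)
          - (X i j * X k l + Y i j * Y k l) * (X j k * X l i + Y j k * Y l i))
      = (X i j * X i j) * (X k l * X k l) + (Y i j * Y i j) * (Y k l * Y k l)
        + 2 * ((X i j * Y i j) * (X k l * Y k l))
        + 2 * (X i j * X j k * Y k l * Y l i + Y i j * Y j k * X k l * X l i
          - X i j * Y j k * X k l * Y l i - Y i j * X j k * Y k l * X l i) := by
    intro i j k l; ring
  simp only [h]
  have hs : (∑ i, ∑ j, ∑ k, ∑ l : Fin n, ((X i j * X i j) * (X k l * X k l)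
        + (Y i j * Y i j) * (Y k l * Y k l)
        + 2 * ((X i j * Y i j) * (X k l * Y k l))
        + 2 * (X i j * X j k * Y k l * Y l i + Y i j * Y j k * X k l * X l i
          - X i j * Y j k * X k l * Y l i - Y i j * X j k * Y k l * X l i)))
      = (∑ i, ∑ j, ∑ k, ∑ l : Fin n, (X i j * X i j) * (X k l * X k l))
        + (∑ i, ∑ j, ∑ k, ∑ l : Fin n, (Y i j * Y i j) * (Y k l * Y k l))
        + 2 * (∑ i, ∑ j, ∑ k, ∑ l : Fin n, (X i j * Y i j) * (X k l * Y k l))
        + 2 * ((∑ i, ∑ j, ∑ k, ∑ l : Fin n, X i j * X j k * Y k l * Y l i)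
          + (∑ i, ∑ j, ∑ k, ∑ l : Fin n, Y i j * Y j k * X k l * X l i)
          - (∑ i, ∑ j, ∑ k, ∑ l : Fin n, X i j * Y j k * X k l * Y l i)
          - (∑ i, ∑ j, ∑ k, ∑ l : Fin n, Y i j * X j k * Y k l * X l i)) := by
    simp only [Finset.sum_add_distrib, Finset.sum_sub_distrib, ← Finset.mul_sum]
  have q1 := sum4 (fun i j => X i j * X i j) (fun i j => X i j * X i j)
  have q2 := sum4 (fun i j => Y i j * Y i j) (fun i j => Y i j * Y i j)
  have q3 := sum4 (fun i j => X i j * Y i j) (fun i j => X i j * Y i j)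
  rw [hs, q1, q2, q3, t4, t4, t4, t4, cq_trace X Y hX hY]
  have e3 : Matrix.trace ((Matrix.of Y * Matrix.of Y) * (Matrix.of X * Matrix.of X)) =
      Matrix.trace ((Matrix.of X * Matrix.of X) * (Matrix.of Y * Matrix.of Y)) := by
    rw [Matrix.trace_mul_comm]
  have e4 : Matrix.trace ((Matrix.of Y * Matrix.of X) * (Matrix.of Y * Matrix.of X)) =
      Matrix.trace ((Matrix.of X * Matrix.of Y) * (Matrix.of X * Matrix.of Y)) := by
    have : (Matrix.of Y * Matrix.of X) * (Matrix.of Y * Matrix.of X) =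
        Matrix.of Y * (Matrix.of X * Matrix.of Y * Matrix.of X) := by
      simp only [Matrix.mul_assoc]
    rw [this, Matrix.trace_mul_comm]
    congr 1
    simp only [Matrix.mul_assoc]
  rw [e3, e4]; ring

theorem hSQB (hSQG : StSQG) : StSQB := by
  intro n N hn A K b r ξ η x₀ hK hb hKB v hv
  have hn' : (n : ℝ) ≠ 0 := by exact_mod_cast (by omega : n ≠ 0)
  have hr : r ≠ 0 := hKB.r0.ne'
  -- the mean curvature
  have hA : ∀ i j, A i j = K i j • ξ + b i j • η - (if i = j then r else 0) • x₀ := by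
    intro i j; rw [hKB.eq]
  have hHv : Hv A = (n : ℝ) • (Helper35.HC.mt K • ξ + Helper35.HC.mt b • η - r • x₀) := by
    unfold Hv
    simp only [hA, if_true, Finset.sum_sub_distrib, Finset.sum_add_distrib, ← Finset.sum_smul,
      Finset.sum_const, Finset.card_univ, Fintype.card_fin]
    have k1 : (∑ i, K i i) = (n : ℝ) * Helper35.HC.mt K := by
      unfold Helper35.HC.mt; field_simp
    have k2 : (∑ i, b i i) = (n : ℝ) * Helper35.HC.mt b := by
      unfold Helper35.HC.mt; field_simp
    rw [k1, k2]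
    simp only [smul_sub, smul_add, smul_smul, nsmul_eq_mul]
  set m : EE N := (1 / (n : ℝ)) • Hv A with hm
  have hm' : m = Helper35.HC.mt K • ξ + Helper35.HC.mt b • η - r • x₀ := by
    rw [hm, hHv, smul_smul, one_div, inv_mul_cancel₀ hn', one_smul]
  set a : Fin n → Fin n → EE N := fun i j => A i j - (if i = j then (1 : ℝ) else 0) • m with ha
  have ha' : ∀ i j, a i j = tl K i j • ξ + tl b i j • η := by
    intro i j
    rw [ha]
    simp only
    rw [hA i j, hm']
    unfold tl
    by_cases h : i = j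
    · simp only [h, if_true, one_smul, sub_smul]
      abel
    · simp only [h, if_false, zero_smul, sub_zero]
  have haa : ∀ i j k l, (inner ℝ (a i j) (a k l) : ℝ) =
      tl K i j * tl K k l + tl b i j * tl b k l := by
    intro i j k l
    rw [ha', ha', inner_aa hKB.nξ hKB.nη hKB.ξη]
  have hξx := hKB.ξx
  have hηx := hKB.ηx
  have ham : ∀ i j, (inner ℝ (a i j) m : ℝ) =
      Helper35.HC.mt K * tl K i j + Helper35.HC.mt b * tl b i j := by
    intro i j
    rw [ha', hm', inner_sub_right, inner_aa hKB.nξ hKB.nη hKB.ξη, real_inner_smul_right,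
      inner_add_left, real_inner_smul_left, real_inner_smul_left, hξx, hηx]
    ring
  have hmm : ‖m‖ ^ 2 = Helper35.HC.mt K ^ 2 + Helper35.HC.mt b ^ 2 + r := by
    rw [← real_inner_self_eq_norm_sq, hm', inner_sub_left, inner_sub_right, inner_sub_right,
      inner_aa hKB.nξ hKB.nη hKB.ξη]
    have hxx : (inner ℝ x₀ x₀ : ℝ) = 1 / r := by rw [real_inner_self_eq_norm_sq]; exact hKB.nx
    have hxξ : (inner ℝ x₀ ξ : ℝ) = 0 := by rw [real_inner_comm]; exact hξx
    have hxη : (inner ℝ x₀ η : ℝ) = 0 := by rw [real_inner_comm]; exact hηx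
    simp only [inner_add_left, inner_add_right, real_inner_smul_left, real_inner_smul_right,
      hξx, hηx, hxx, hxξ, hxη]
    field_simp
    ring
  have hsymA : SymV A := by
    intro i j
    rw [hA i j, hA j i, hK i j, hb i j]
    by_cases h : i = j
    · subst h; rfl
    · rw [if_neg h, if_neg (fun h' => h h'.symm)]
  have hv' : v = (∑ i, ∑ j, (inner ℝ (a i j) m : ℝ) ^ 2) := by
    simp only [ham]
    have : ∀ i j, (Helper35.HC.mt K * tl K i j + Helper35.HC.mt b * tl b i j) ^ 2 =
        Helper35.HC.mt K ^ 2 * (tl K i j * tl K i j)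
          + 2 * Helper35.HC.mt K * Helper35.HC.mt b * (tl K i j * tl b i j)
          + Helper35.HC.mt b ^ 2 * (tl b i j * tl b i j) := by
      intro i j; ring
    simp only [this, Finset.sum_add_distrib, ← Finset.mul_sum]
    rw [hv]; rfl
  obtain ⟨_, _, hYY, hXX, hSq, hZZ, _, _, _, _, _, _⟩ :=
    hSQG n N hn A hsymA m a hm ha v hv'
  have h4 : ‖m‖ ^ 4 = (Helper35.HC.mt K ^ 2 + Helper35.HC.mt b ^ 2 + r) ^ 2 := by
    rw [← hmm]; ring
  have hth : thA2 A = ip0 K K + ip0 b b := by
    rw [← hXX]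
    unfold XX ip0
    rw [← Finset.sum_add_distrib]
    refine Finset.sum_congr rfl (fun i _ => ?_)
    rw [← Finset.sum_add_distrib]
    refine Finset.sum_congr rfl (fun j _ => ?_)
    rw [← real_inner_self_eq_norm_sq, haa]
  have hZZ' : ZZ A = n ^ 2 * (v + n * (Helper35.HC.mt K ^ 2 + Helper35.HC.mt b ^ 2 + r) ^ 2) := by
    rw [hZZ, h4]
  refine ⟨hHv, by rw [hYY, hmm], hth, hZZ', ?_, ?_, ?_⟩
  · rw [hSq, hZZ', h4, Sq_val (tl K) (tl b) (tl_sym hK) (tl_sym hb) a haa, cq_tl]
    unfold ip0
    field_simp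
    ring
  · have : ∀ i j, K i j ^ 2 = tl K i j * tl K i j
        + 2 * ((if i = j then Helper35.HC.mt K else 0) * tl K i j)
        + (if i = j then Helper35.HC.mt K else 0) * (if i = j then Helper35.HC.mt K else 0) := by
      intro i j; unfold tl; ring
    simp only [this, Finset.sum_add_distrib, ← Finset.mul_sum, ite_mul, zero_mul,
      Finset.sum_ite_eq, Finset.mem_univ, if_true]
    rw [sum_tl hn K]
    simp only [Finset.sum_const, Finset.card_univ, Fintype.card_fin, nsmul_eq_mul]
    unfold ip0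
    ring
  · unfold ip0
    have hc := Finset.sum_mul_sq_le_sq_mul_sq (Finset.univ : Finset (Fin n × Fin n))
      (fun p => tl K p.1 p.2) (fun p => tl b p.1 p.2)
    simp only [Fintype.sum_prod_type] at hc
    simpa only [pow_two] using hc

end Helper94.HC
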